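import Pool.Agent.E8helper36.CF.Stm

/-!
# Project CF36: piece ROT (rotations of non-crossing matchings)
-/

set_option autoImplicit false

namespace Pool.Agent.E8helper57.CF

open Finset
open Pool.Agent.E8helper36.CF

variable {n : ℕ}

lemma sh_one (i : Fin (2 * n)) :
    ((sh n 1 i : Fin (2 * n)) : ℕ) = if (i : ℕ) + 1 = 2 * n then 0 else (i : ℕ) + 1 := by
  have hi := i.2
  change ((i : ℕ) + 1) % (2 * n) = _
  split_ifs with h
  · rw [h, Nat.mod_self]
  · exact Nat.mod_eq_of_lt (by omega)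

lemma sh_zero (i : Fin (2 * n)) : sh n 0 i = i := by
  apply Fin.ext
  change ((i : ℕ) + 0) % (2 * n) = i
  rw [add_zero]
  exact Nat.mod_eq_of_lt i.2

lemma sh_succ (s : ℕ) (i : Fin (2 * n)) : sh n (s + 1) i = sh n 1 (sh n s i) := by
  apply Fin.ext
  change ((i : ℕ) + (s + 1)) % (2 * n) = ((((i : ℕ) + s) % (2 * n)) + 1) % (2 * n)
  rw [Nat.mod_add_mod, add_assoc]

lemma sh_inj : Function.Injective (sh n 1) := by
  intro i j h
  have h1 := congrArg Fin.val h
  rw [sh_one, sh_one] at h1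
  apply Fin.ext
  split_ifs at h1 <;> omega

lemma sh_bij : Function.Bijective (sh n 1) := Finite.injective_iff_bijective.1 sh_inj

lemma sh_surj (s : ℕ) : Function.Surjective (sh n s) := by
  induction s with
  | zero => exact fun i => ⟨i, sh_zero i⟩
  | succ s ih =>
    intro j
    obtain ⟨k, hk⟩ := sh_bij.2 j
    obtain ⟨i, hi⟩ := ih k
    exact ⟨i, by rw [sh_succ, hi, hk]⟩

/-- the point before `j` -/
def dn (j : Fin (2 * n)) : Fin (2 * n) :=
  ⟨if (j : ℕ) = 0 then 2 * n - 1 else (j : ℕ) - 1, by have := j.2; split_ifs <;> omega⟩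

lemma dn_val (j : Fin (2 * n)) : ((dn j : Fin (2 * n)) : ℕ) =
    if (j : ℕ) = 0 then 2 * n - 1 else (j : ℕ) - 1 := rfl

lemma sh_dn (j : Fin (2 * n)) : sh n 1 (dn j) = j := by
  apply Fin.ext
  have := j.2
  rw [sh_one, dn_val]
  split_ifs <;> omega

lemma dn_sh (j : Fin (2 * n)) : dn (sh n 1 j) = j := sh_inj (sh_dn _)

/-- the rotation by one step -/
def rot (M : Matching n) : Matching n where
  m j := sh n 1 (M.m (dn j))
  inv j := by rw [dn_sh, M.inv, sh_dn]
  ne j h := by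
    have h1 : M.m (dn j) = dn j := sh_inj (h.trans (sh_dn j).symm)
    exact M.ne _ h1
  nc a b h1 h2 h3 := by
    have ha := a.2
    have hb := b.2
    have k1 : (a : ℕ) < b := h1
    have k2 : (b : ℕ) < (sh n 1 (M.m (dn a)) : Fin (2 * n)) := h2
    have k3 : ((sh n 1 (M.m (dn a)) : Fin (2 * n)) : ℕ) < (sh n 1 (M.m (dn b)) : Fin (2 * n)) := h3
    rw [sh_one] at k2 k3
    rw [sh_one] at k3
    have hMa := (M.m (dn a)).2
    have hMb := (M.m (dn b)).2
    have hdb : ((dn b : Fin (2 * n)) : ℕ) = b - 1 := by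
      rw [dn_val, if_neg (by omega)]
    by_cases h0 : (a : ℕ) = 0
    · have hda : ((dn a : Fin (2 * n)) : ℕ) = 2 * n - 1 := by
        rw [dn_val, if_pos h0]
      have hne : ((M.m (dn a)) : ℕ) ≠ 2 * n - 1 := by
        intro h
        exact M.ne (dn a) (Fin.ext (by rw [h, hda]))
      rw [if_neg (by omega)] at k2 k3
      have hb1 : (dn b : Fin (2 * n)) < M.m (dn a) := by
        rw [Fin.lt_def, hdb]
        omega
      have hb2 : M.m (dn a) < M.m (dn b) := by
        rw [Fin.lt_def]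
        split_ifs at k3 <;> omega
      have h4 := M.nc (dn b) (M.m (dn a)) hb1 hb2
      rw [M.inv, Fin.lt_def, hda, not_lt] at h4
      split_ifs at k3 <;> omega
    · have hda : ((dn a : Fin (2 * n)) : ℕ) = a - 1 := by
        rw [dn_val, if_neg h0]
      have hne : ((M.m (dn a)) : ℕ) + 1 ≠ 2 * n := by
        intro h
        rw [if_pos h] at k2
        omega
      rw [if_neg hne] at k2 k3
      have h4 := M.nc (dn a) (dn b) (by rw [Fin.lt_def, hda, hdb]; omega)
        (by rw [Fin.lt_def, hdb]; omega)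
      rw [Fin.lt_def, not_lt] at h4
      split_ifs at k3 <;> omega

lemma rot_spec (M : Matching n) : RotBy 1 M (rot M) := by
  intro i
  change sh n 1 (M.m (dn (sh n 1 i))) = _
  rw [dn_sh]

lemma ext_m {M M' : Matching n} (h : ∀ i, M'.m i = M.m i) : M' = M := by
  cases M
  cases M'
  simp only [Matching.mk.injEq]
  exact funext h

lemma rotBy_zero {M M' : Matching n} (h : RotBy 0 M M') : M' = M := by
  apply ext_m
  intro i
  have := h i
  rwa [sh_zero, sh_zero] at this

lemma rotBy_trans {s : ℕ} {M M' M'' : Matching n} (h : RotBy s M M') (h' : RotBy 1 M' M'') :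
    RotBy (s + 1) M M'' := by
  intro i
  rw [sh_succ s i, sh_succ s (M.m i), h' (sh n s i), h i]

lemma rotBy_cancel {s : ℕ} {M M' M'' : Matching n} (h : RotBy s M M')
    (h' : RotBy (s + 1) M M'') : RotBy 1 M' M'' := by
  intro j
  obtain ⟨i, rfl⟩ := sh_surj s j
  rw [h i, ← sh_succ s i, ← sh_succ s (M.m i)]
  exact h' i

lemma exists_rot (s : ℕ) (M : Matching n) : ∃ M' : Matching n, RotBy s M M' := by
  induction s with
  | zero => exact ⟨M, fun i => by rw [sh_zero, sh_zero]⟩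
  | succ s ih =>
    obtain ⟨M', h⟩ := ih
    exact ⟨rot M', rotBy_trans h (rot_spec M')⟩

lemma rep_cyc {M M' : Matching n} {a b c d : Fin (2 * n)} (h : Rep M M' a b c d) :
    Rep M' M d a b c where
  ab := by rw [← h.ad, M'.inv]
  cd := h.bc
  bc := h.ab
  ad := by rw [← h.cd, M.inv]
  rest i h1 h2 h3 h4 := (h.rest i h2 h3 h4 h1).symm

lemma rep_rot {M M' N N' : Matching n} {a b c d : Fin (2 * n)} (h : Rep M N a b c d)
    (hM : RotBy 1 M M') (hN : RotBy 1 N N') :
    Rep M' N' (sh n 1 a) (sh n 1 b) (sh n 1 c) (sh n 1 d) where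
  ab := by rw [hM, h.ab]
  cd := by rw [hM, h.cd]
  bc := by rw [hN, h.bc]
  ad := by rw [hN, h.ad]
  rest i h1 h2 h3 h4 := by
    obtain ⟨j, rfl⟩ := sh_bij.2 i
    rw [hM, hN, h.rest j (fun e => h1 (by rw [e])) (fun e => h2 (by rw [e]))
      (fun e => h3 (by rw [e])) (fun e => h4 (by rw [e]))]

lemma cf_rot {M M' N N' : Matching n} (hM : RotBy 1 M M') (hN : RotBy 1 N N') (h : CF M N) :
    CF M' N' := by
  obtain ⟨a, b, c, d, hab, hbc, hcd, i1, i2, i3, i4, h⟩ := h
  have hab' : (a : ℕ) < b := hab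
  have hbc' : (b : ℕ) < c := hbc
  have hcd' : (c : ℕ) < d := hcd
  have hd := d.2
  have ea : ((sh n 1 a : Fin (2 * n)) : ℕ) = a + 1 := by rw [sh_one, if_neg (by omega)]
  have eb : ((sh n 1 b : Fin (2 * n)) : ℕ) = b + 1 := by rw [sh_one, if_neg (by omega)]
  have ec : ((sh n 1 c : Fin (2 * n)) : ℕ) = c + 1 := by rw [sh_one, if_neg (by omega)]
  have hrep : Rep M' N' (sh n 1 a) (sh n 1 b) (sh n 1 c) (sh n 1 d) ∨
      Rep N' M' (sh n 1 a) (sh n 1 b) (sh n 1 c) (sh n 1 d) := by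
    rcases h with h | h
    · exact Or.inl (rep_rot h hM hN)
    · exact Or.inr (rep_rot h hN hM)
  by_cases hw : (d : ℕ) + 1 = 2 * n
  · have ed : ((sh n 1 d : Fin (2 * n)) : ℕ) = 0 := by rw [sh_one, if_pos hw]
    refine ⟨sh n 1 d, sh n 1 a, sh n 1 b, sh n 1 c, ?_, ?_, ?_, ?_, ?_, ?_, ?_, ?_⟩
    · rw [Fin.lt_def]; omega
    · rw [Fin.lt_def]; omega
    · rw [Fin.lt_def]; omega
    · omega
    · omega
    · omega
    · omega
    · rcases hrep with h | h
      · exact Or.inr (rep_cyc h)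
      · exact Or.inl (rep_cyc h)
  · have ed : ((sh n 1 d : Fin (2 * n)) : ℕ) = d + 1 := by rw [sh_one, if_neg hw]
    refine ⟨sh n 1 a, sh n 1 b, sh n 1 c, sh n 1 d, ?_, ?_, ?_, ?_, ?_, ?_, ?_, hrep⟩
    · rw [Fin.lt_def]; omega
    · rw [Fin.lt_def]; omega
    · rw [Fin.lt_def]; omega
    · omega
    · omega
    · omega
    · omega

lemma wt_rot {M M' : Matching n} (h : RotBy 1 M M') (i : Fin (2 * n)) :
    wt M' (sh n 1 i) = - wt M i := by
  have hi := i.2
  have hj := (M.m i).2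
  have hne : ((M.m i : Fin (2 * n)) : ℕ) ≠ i := fun e => M.ne i (Fin.ext e)
  have hf : fwd M' (sh n 1 i) = fwd M i := by
    unfold fwd
    rw [h i]
    simp only [Fin.lt_def]
    rw [sh_one, sh_one]
    split_ifs <;> omega
  unfold wt
  rw [hf]
  have hp : ((sh n 1 i : Fin (2 * n)) : ℕ) % 2 = 0 ↔ ¬ (i : ℕ) % 2 = 0 := by
    rw [sh_one]
    split_ifs <;> omega
  by_cases hi2 : (i : ℕ) % 2 = 0
  · rw [if_neg (fun hh => (hp.1 hh) hi2), if_pos hi2]
    split_ifs <;> ring
  · rw [if_pos (hp.2 hi2), if_neg hi2]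
    split_ifs <;> ring

lemma pot_rot {M M' : Matching n} (h : RotBy 1 M M') : Pot M' = - Pot M := by
  unfold Pot
  rw [← sh_bij.sum_comp, ← Finset.sum_neg_distrib]
  exact Finset.sum_congr rfl fun i _ => wt_rot h i

theorem t_ROT : S_ROT := by
  intro n s _
  refine ⟨exists_rot s, ?_, ?_⟩
  · induction s with
    | zero =>
      intro M M' N N' hM hN h
      rw [rotBy_zero hM, rotBy_zero hN]
      exact h
    | succ s ih =>
      intro M M' N N' hM hN h
      obtain ⟨M1, hM1⟩ := exists_rot s M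
      obtain ⟨N1, hN1⟩ := exists_rot s N
      exact cf_rot (rotBy_cancel hM1 hM) (rotBy_cancel hN1 hN) (ih M M1 N N1 hM1 hN1 h)
  · induction s with
    | zero =>
      intro M M' hM
      rw [rotBy_zero hM, pow_zero, one_mul]
    | succ s ih =>
      intro M M' hM
      obtain ⟨M1, hM1⟩ := exists_rot s M
      rw [pot_rot (rotBy_cancel hM1 hM), ih M M1 hM1, pow_succ]
      ring

end Pool.Agent.E8helper57.CF
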